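import Pool.Agent.Helper68.KurFinal

/-!
A positive proportion of the labelled cubic graphs on `n` vertices, for infinitely many even `n`, is
not globally synchronizing: the energy on the torus has a local minimum which is not constant.
-/

set_option autoImplicit false

open Classical

namespace Pool.Agent.Results.MP_1448dd_pr.RandomCubic

open Pool.Agent.Helper68.Kur

/-- a local minimum of the lift is a local minimum on the torus -/
theorem torus_min {n : ℕ} (G : SimpleGraph (Fin n)) (θ : Fin n → ℝ)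
    (h : IsLocalMin (fun φ : Fin n → ℝ =>
      (1 / 2 : ℝ) * ∑ i, ∑ j, (if G.Adj i j then 1 - Real.cos (φ i - φ j) else 0)) θ) :
    IsLocalMin (fun φ : Fin n → Real.Angle =>
      (1 / 2 : ℝ) * ∑ i, ∑ j, (if G.Adj i j then 1 - (φ i - φ j).cos else 0))
      (fun i => (θ i : Real.Angle)) := by
  set pr : (Fin n → ℝ) → Fin n → Real.Angle := fun φ i => (φ i : Real.Angle) with hpr
  have hopen : IsOpenMap pr := by
    have : IsOpenMap (Pi.map fun (_ : Fin n) (x : ℝ) => (x : Real.Angle)) :=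
      IsOpenMap.piMap (fun _ => QuotientAddGroup.isOpenMap_coe) (by
        rw [Filter.eventually_cofinite]
        exact Set.toFinite _)
    exact this
  have h1 : nhds (pr θ) ≤ Filter.map pr (nhds θ) := hopen.nhds_le θ
  apply h1
  rw [Filter.mem_map]
  filter_upwards [h] with φ hφ
  have key : ∀ ψ : Fin n → ℝ, ((1 / 2 : ℝ) * ∑ i, ∑ j,
      (if G.Adj i j then 1 - (pr ψ i - pr ψ j).cos else 0)) =
      (1 / 2 : ℝ) * ∑ i, ∑ j, (if G.Adj i j then 1 - Real.cos (ψ i - ψ j) else 0) := by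
    intro ψ
    refine congrArg (fun t => (1 / 2 : ℝ) * t) ?_
    refine Finset.sum_congr rfl fun i _ => Finset.sum_congr rfl fun j _ => ?_
    have : (pr ψ i - pr ψ j).cos = Real.cos (ψ i - ψ j) := by
      show ((ψ i : Real.Angle) - (ψ j : Real.Angle)).cos = _
      rw [← Real.Angle.coe_sub, Real.Angle.cos_coe]
    rw [this]
  have h2 : ((1 / 2 : ℝ) * ∑ i, ∑ j, (if G.Adj i j then 1 - (pr θ i - pr θ j).cos else 0)) ≤
      (1 / 2 : ℝ) * ∑ i, ∑ j, (if G.Adj i j then 1 - (pr φ i - pr φ j).cos else 0) := by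
    rw [key φ, key θ]
    exact hφ
  exact h2

theorem card_fin' {α : Type*} (s : Finset α) : Nat.card {x // x ∈ s} = s.card := by
  rw [Nat.card_eq_fintype_card, Fintype.card_coe]

theorem cub_iff {n : ℕ} (G : SimpleGraph (Fin n)) :
    G ∈ Cub (Fin n) ↔ ∀ v, (G.neighborSet v).ncard = 3 := by
  simp only [Cub, Finset.mem_filter, Finset.mem_univ, true_and]
  refine forall_congr' fun v => ?_
  have : (G.neighborSet v).ncard = (Finset.univ.filter (fun w => G.Adj v w)).card := by
    rw [← Set.ncard_coe_finset]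
    congr 1
    ext w
    simp
  rw [this]

theorem nonsync_torus {n : ℕ} (G : SimpleGraph (Fin n)) (h : NonSync G) :
    ∃ θ : Fin n → Real.Angle, IsLocalMin (fun φ : Fin n → Real.Angle =>
      (1 / 2 : ℝ) * ∑ i, ∑ j, (if G.Adj i j then 1 - (φ i - φ j).cos else 0)) θ ∧
      ∃ i j, θ i ≠ θ j := by
  obtain ⟨θ, hmin, i, j, hij⟩ := h
  refine ⟨fun i => (θ i : Real.Angle), torus_min G θ hmin, i, j, ?_⟩
  intro he
  obtain ⟨k, hk⟩ := Real.Angle.angle_eq_iff_two_pi_dvd_sub.mp he
  exact hij k hk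

theorem result : ∃ γ : ℝ, 0 < γ ∧ ∃ᶠ m : ℕ in Filter.atTop,
    0 < Nat.card {G : SimpleGraph (Fin (2 * m)) // ∀ v, (G.neighborSet v).ncard = 3} ∧
    γ * Nat.card {G : SimpleGraph (Fin (2 * m)) // ∀ v, (G.neighborSet v).ncard = 3} ≤
      Nat.card {G : SimpleGraph (Fin (2 * m)) // (∀ v, (G.neighborSet v).ncard = 3) ∧
        ∃ θ : Fin (2 * m) → Real.Angle,
          IsLocalMin (fun φ : Fin (2 * m) → Real.Angle =>
            (1 / 2 : ℝ) * ∑ i, ∑ j, (if G.Adj i j then 1 - (φ i - φ j).cos else 0)) θ ∧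
          ∃ i j, θ i ≠ θ j} := by
  obtain ⟨γ, hγ, hfreq⟩ := frequently_nonsync
  refine ⟨γ, hγ, ?_⟩
  have hsh : Filter.Tendsto (fun m : ℕ => m + 2) Filter.atTop Filter.atTop :=
    Filter.tendsto_add_atTop_nat 2
  apply hsh.frequently
  refine hfreq.mono ?_
  rintro m ⟨hpos, hle⟩
  have he : 2 * (m + 2) = 2 * m + 4 := by ring
  rw [he]
  set n : ℕ := 2 * m + 4 with hn
  have e1 : Nat.card {G : SimpleGraph (Fin n) // ∀ v, (G.neighborSet v).ncard = 3} =
      (Cub (Fin n)).card := by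
    rw [← card_fin']
    apply Nat.card_congr
    exact Equiv.subtypeEquivRight fun G => (cub_iff G).symm
  have e2 : ((Cub (Fin n)).filter (fun H => NonSync H)).card ≤
      Nat.card {G : SimpleGraph (Fin n) // (∀ v, (G.neighborSet v).ncard = 3) ∧
        ∃ θ : Fin n → Real.Angle,
          IsLocalMin (fun φ : Fin n → Real.Angle =>
            (1 / 2 : ℝ) * ∑ i, ∑ j, (if G.Adj i j then 1 - (φ i - φ j).cos else 0)) θ ∧
          ∃ i j, θ i ≠ θ j} := by
    rw [← card_fin']
    apply Nat.card_le_card_of_injective (fun H => ⟨H.1, by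
      have h1 := Finset.mem_filter.mp H.2
      exact ⟨(cub_iff H.1).mp h1.1, nonsync_torus H.1 h1.2⟩⟩)
    intro H H' h
    have h2 := congrArg (fun K => K.1) h
    exact Subtype.ext h2
  refine ⟨by rw [e1]; exact hpos, ?_⟩
  rw [e1]
  refine hle.trans ?_
  exact_mod_cast e2

end Pool.Agent.Results.MP_1448dd_pr.RandomCubic
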